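import Mathlib

namespace Pool.Agent.Results.MP_e444d1_an.Never
open MeasureTheory Set Filter Topology Real
open scoped ContDiff

/-- completely monotone on `(0, ∞)` -/
def CM (m : ℝ → ℝ) : Prop :=
  ContDiffOn ℝ ∞ m (Ioi 0) ∧ ∀ k : ℕ, ∀ t > 0, 0 ≤ (-1) ^ k * iteratedDeriv k m t

/-- complete Bernstein functions -/
def CBF (F : ℝ → ℝ) : Prop :=
  ∃ a b : ℝ, ∃ m : ℝ → ℝ, 0 ≤ a ∧ 0 ≤ b ∧ CM m ∧ IntegrableOn (fun t => min 1 t * m t) (Ioi 0) ∧
    ∀ x > 0, F x = a + b * x + ∫ t in Ioi (0 : ℝ), (1 - exp (-x * t)) * m t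

theorem result (p N D : ℝ) (hp : 1 < p) (hN : -1 < N) (hND : N < D) (hD : D ≤ 0) :
    ¬ ∃ F, CBF F ∧ ∀ n : ℕ, 1 ≤ n → F n = (p ^ n + N) / (p ^ n + D) := by
  rintro ⟨F, ⟨a, b, m, -, hb, ⟨hc, hm⟩, hi, hF⟩, hn⟩
  have m0 : ∀ t > 0, 0 ≤ m t := fun t ht => by simpa using hm 0 t ht
  have anti : AntitoneOn m (Ioi 0) := antitoneOn_of_deriv_nonpos (convex_Ioi 0) hc.continuousOn
    (by rw [interior_Ioi]; exact hc.differentiableOn (by simp))
    (fun t ht => by rw [interior_Ioi] at ht; simpa using hm 1 t ht)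
  have int : ∀ x > 0, IntegrableOn (fun t => (1 - exp (-x * t)) * m t) (Ioi 0) := fun x hx => by
    refine (hi.const_mul (x + 1)).mono' (ContinuousOn.aestronglyMeasurable
      (ContinuousOn.mul (by fun_prop) hc.continuousOn) measurableSet_Ioi) ?_
    filter_upwards [ae_restrict_mem measurableSet_Ioi] with t ht
    have h0 : 0 < t := ht
    have h1 : exp (-x * t) ≤ 1 := exp_le_one_iff.2 (by nlinarith)
    have h2 := add_one_le_exp (-x * t)
    have h3 := exp_pos (-x * t)
    rw [Real.norm_eq_abs, abs_of_nonneg (mul_nonneg (by linarith) (m0 t ht)), ← mul_assoc]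
    gcongr
    · exact m0 t ht
    · rcases le_total 1 t with h | h
      · rw [min_eq_left h]; linarith
      · rw [min_eq_right h]; nlinarith
  have pos : ∀ n : ℕ, 0 < p ^ n + D := fun n => by linarith [one_le_pow₀ (n := n) hp.le]
  have up : ∀ n : ℕ, 1 ≤ n → F (n + 1) - F n ≤ (D - N) / (1 + D) * (p ^ n)⁻¹ := fun n h => by
    have h1 := hn (n + 1) (by omega)
    push_cast at h1
    have h2 : (p ^ (n + 1) + N) / (p ^ (n + 1) + D) ≤ 1 := by
      rw [div_le_one (pos _)]; linarith
    have h3 : 1 - (p ^ n + N) / (p ^ n + D) = (D - N) / (p ^ n + D) := by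
      field_simp [(pos n).ne']; ring
    have h4 : (D - N) / (p ^ n + D) ≤ (D - N) / (1 + D) * (p ^ n)⁻¹ := by
      rw [← div_eq_mul_inv, div_div]
      apply div_le_div_of_nonneg_left (by linarith) (mul_pos (by linarith) (by positivity))
      nlinarith [one_le_pow₀ (n := n) hp.le]
    rw [h1, hn n h]
    linarith
  have low : ∀ e > 0, ∀ n : ℕ, 1 ≤ n →
      b + e * ((1 - exp (-e)) * m (2 * e)) * (exp (2 * e) ^ n)⁻¹ ≤ F (n + 1) - F n := by
    intro e he n h
    have h0 : (0 : ℝ) < n := by exact_mod_cast h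
    have i1 := (int (n + 1) (by linarith)).sub (int n h0)
    have key : ∀ t > 0, (1 - exp (-(n + 1) * t)) * m t - (1 - exp (-n * t)) * m t =
        exp (-n * t) * ((1 - exp (-t)) * m t) := fun t _ => by
      rw [show -((n : ℝ) + 1) * t = -n * t + -t by ring, exp_add]; ring
    have h1 : ∫ t in Ioc e (2 * e), ((1 - exp (-(n + 1) * t)) * m t - (1 - exp (-n * t)) * m t) ≤
        ∫ t in Ioi 0, ((1 - exp (-(n + 1) * t)) * m t - (1 - exp (-n * t)) * m t) := by
      refine setIntegral_mono_set i1 ?_ (Eventually.of_forall fun t ht => he.trans ht.1)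
      filter_upwards [ae_restrict_mem measurableSet_Ioi] with t ht
      have h0 : 0 < t := ht
      have h1 : exp (-t) ≤ 1 := exp_le_one_iff.2 (by linarith)
      simp only [Pi.zero_apply, key t ht]
      exact mul_nonneg (exp_pos _).le (mul_nonneg (by linarith) (m0 t ht))
    have h2 := setIntegral_mono_on (μ := volume) (s := Ioc e (2 * e))
      (f := fun _ => (exp (2 * e) ^ n)⁻¹ * ((1 - exp (-e)) * m (2 * e)))
      (g := fun t => (1 - exp (-(n + 1) * t)) * m t - (1 - exp (-n * t)) * m t)
      (integrableOn_const (by simp))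
      (i1.mono_set fun t ht => he.trans ht.1) measurableSet_Ioc fun t ht => by
        have h0 : 0 < t := he.trans ht.1
        have h1 : exp (-e) ≤ 1 := exp_le_one_iff.2 (by linarith)
        have h2 := m0 (2 * e) (by linarith)
        simp only [key t h0]
        rw [← exp_nat_mul, ← exp_neg]
        gcongr
        · nlinarith [ht.2]
        · linarith [exp_le_one_iff.2 (show -t ≤ 0 by linarith)]
        · exact ht.1.le
        · exact anti h0 (show (0 : ℝ) < 2 * e by linarith) ht.2
    rw [integral_sub (int (n + 1) (by linarith)) (int n h0)] at h1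
    rw [setIntegral_const, Real.volume_real_Ioc_of_le (by linarith), smul_eq_mul] at h2
    rw [hF _ (by linarith), hF _ h0]
    nlinarith
  have lp := log_pos hp
  have zero : ∀ e > 0, 2 * e < log p → b = 0 ∧ m (2 * e) = 0 := fun e he h => by
    have h1 : exp (2 * e) < p := by rwa [← lt_log_iff_exp_lt (by linarith)]
    have h2 : exp (-e) < 1 := exp_lt_one_iff.2 (by linarith)
    have h3 := m0 (2 * e) (by linarith)
    have h4 : 0 ≤ e * ((1 - exp (-e)) * m (2 * e)) := mul_nonneg he.le (mul_nonneg (by linarith) h3)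
    have t1 := (tendsto_pow_atTop_nhds_zero_of_lt_one (r := exp (2 * e) / p) (by positivity)
      (by rwa [div_lt_one (by linarith)])).const_mul ((D - N) / (1 + D))
    have h5 : b + e * ((1 - exp (-e)) * m (2 * e)) ≤ (D - N) / (1 + D) * 0 :=
      ge_of_tendsto t1 (by
        filter_upwards [eventually_ge_atTop 1] with n hn
        have a1 := (low e he n hn).trans (up n hn)
        have a2 : 1 ≤ exp (2 * e) ^ n := one_le_pow₀ (one_le_exp (by linarith))
        have a3 := mul_le_mul_of_nonneg_right a1 (zero_le_one.trans a2)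
        rw [add_mul, mul_assoc _ _⁻¹, inv_mul_cancel₀ (by positivity), mul_one, mul_assoc,
          mul_comm _⁻¹, ← div_eq_mul_inv, ← div_pow] at a3
        nlinarith)
    refine ⟨by linarith, ?_⟩
    have h6 : e * ((1 - exp (-e)) * m (2 * e)) = 0 := by linarith
    simpa [he.ne', sub_eq_zero, h2.ne'] using h6
  have mz : ∀ t > 0, m t = 0 := fun t ht => by
    have h1 : 0 < min t (log p / 2) := lt_min ht (by linarith)
    have h2 := (zero (min t (log p / 2) / 2) (by linarith)
      (by linarith [min_le_right t (log p / 2)])).2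
    rw [mul_div_cancel₀ _ two_ne_zero] at h2
    exact le_antisymm (h2 ▸ anti h1 ht (min_le_left _ _)) (m0 t ht)
  have cst : ∀ x > 0, F x = a := fun x hx => by
    rw [hF x hx, (zero (log p / 4) (by linarith) (by linarith)).1,
      setIntegral_eq_zero_of_forall_eq_zero fun t ht => by rw [mz t ht, mul_zero]]
    simp
  have h1 := hn 1 le_rfl
  have h2 := hn 2 (by norm_num)
  rw [cst _ (by norm_num)] at h1 h2
  rw [h1, div_eq_div_iff (pos 1).ne' (pos 2).ne'] at h2
  nlinarith [mul_pos (sub_pos.2 hND) (mul_pos (sub_pos.2 hp) (by linarith : 0 < p))]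

end Pool.Agent.Results.MP_e444d1_an.Never
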